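import Pool.Agent.Helper78.DT.Goals

/-!
# Project DT (MP_34c247_lc), packet EXT: random restrictions
-/

namespace Pool.Agent.Helper27.DT

open Pool.Agent.Helper78.DT

open scoped Classical

/-! ### Basic facts on `qq` -/

theorem wt_nonneg {V : Type} [Fintype V] {η : ℝ} (h0 : 0 < η) (h1 : η ≤ 1)
    (ρ : V → Option Bool) : 0 ≤ wt η ρ := by
  unfold wt
  refine Finset.prod_nonneg fun v _ => ?_
  split_ifs <;> linarith

theorem qq_nonneg {V : Type} [Fintype V] [DecidableEq V] {η : ℝ} (h0 : 0 < η) (h1 : η ≤ 1)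
    (E : (V → Bool) → Prop) : 0 ≤ qq η E := by
  unfold qq
  refine Finset.sum_nonneg fun ρ _ => ?_
  split_ifs
  · exact wt_nonneg h0 h1 ρ
  · exact le_rfl

theorem qq_mono {V : Type} [Fintype V] [DecidableEq V] {η : ℝ} (h0 : 0 < η) (h1 : η ≤ 1)
    {E E' : (V → Bool) → Prop} (h : ∀ x, E x → E' x) : qq η E ≤ qq η E' := by
  unfold qq
  refine Finset.sum_le_sum fun ρ _ => ?_
  by_cases h2 : ∃ x, E x ∧ Ext ρ x
  · obtain ⟨x, hx, hr⟩ := h2
    rw [if_pos ⟨x, hx, hr⟩, if_pos ⟨x, h x hx, hr⟩]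
  · rw [if_neg h2]
    split_ifs
    · exact wt_nonneg h0 h1 ρ
    · exact le_rfl

/-! ### The numerical inequality -/

theorem num {η a b : ℝ} (h0 : 0 < η) (h1 : η ≤ 1) (hb : 0 ≤ b) (hab : b ≤ a) :
    ((a + b) / 2) ^ η ≤ (1 - η / 2) * a ^ η + η / 2 * b ^ η := by
  have ha : 0 ≤ a := hb.trans hab
  rcases ha.eq_or_lt with ha0 | ha0
  · have hb0 : b = 0 := le_antisymm (by rw [ha0]; exact hab) hb
    rw [← ha0, hb0]
    simp [Real.zero_rpow h0.ne']
  · set y := b / a with hy
    have hy0 : 0 ≤ y := div_nonneg hb ha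
    have hy1 : y ≤ 1 := (div_le_one ha0).2 hab
    have e1 : (a + b) / 2 = a * (1 + (y - 1) / 2) := by
      rw [hy]; field_simp; ring
    have e2 : b = a * y := by rw [hy]; field_simp
    have h3 : (1 + (y - 1) / 2) ^ η ≤ 1 + η * ((y - 1) / 2) :=
      rpow_one_add_le_one_add_mul_self (by linarith) h0.le h1
    have h4 : y ≤ y ^ η := by
      calc y = y ^ (1 : ℝ) := (Real.rpow_one y).symm
        _ ≤ y ^ η := by
          rcases hy0.eq_or_lt with h | h
          · rw [← h, Real.zero_rpow one_ne_zero, Real.zero_rpow h0.ne']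
          · exact Real.rpow_le_rpow_of_exponent_ge h hy1 h1
    rw [e1, e2, Real.mul_rpow ha (by linarith), Real.mul_rpow ha hy0]
    have h5 : 0 ≤ a ^ η := Real.rpow_nonneg ha η
    have h6 : (1 + (y - 1) / 2) ^ η ≤ (1 - η / 2) + η / 2 * y ^ η := by nlinarith
    calc a ^ η * (1 + (y - 1) / 2) ^ η ≤ a ^ η * ((1 - η / 2) + η / 2 * y ^ η) :=
          mul_le_mul_of_nonneg_left h6 h5
      _ = (1 - η / 2) * a ^ η + η / 2 * (a ^ η * y ^ η) := by ring

/-! ### One more variable -/

theorem pr_succ {n : ℕ} (E : (Fin (n + 1) → Bool) → Prop) :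
    pr E = (pr (fun y : Fin n → Bool => E (Fin.cons true y)) +
      pr (fun y : Fin n → Bool => E (Fin.cons false y))) / 2 := by
  have h1 := pr_equiv (Fin.consEquiv (fun _ : Fin (n + 1) => Bool)) E
  rw [← h1]
  unfold pr
  rw [av_prod]
  conv_lhs => unfold av
  simp only [Fintype.sum_bool, Fintype.card_bool]
  rfl

theorem ext_cons_some {n : ℕ} (b : Bool) (ρ : Fin n → Option Bool)
    (E : (Fin (n + 1) → Bool) → Prop) :
    (∃ x, E x ∧ Ext (Fin.cons (some b) ρ : Fin (n + 1) → Option Bool) x) ↔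
      ∃ y : Fin n → Bool, E (Fin.cons b y) ∧ Ext ρ y := by
  constructor
  · rintro ⟨x, hx, hr⟩
    refine ⟨Fin.tail x, ?_, ?_⟩
    · have h0 : x 0 = b := hr 0 b (by rw [Fin.cons_zero])
      rw [← h0, Fin.cons_self_tail]
      exact hx
    · intro v c hv
      exact hr v.succ c (by rw [Fin.cons_succ]; exact hv)
  · rintro ⟨y, hy, hr⟩
    refine ⟨Fin.cons b y, hy, ?_⟩
    intro v c hv
    rcases Fin.eq_zero_or_eq_succ v with h | ⟨i, h⟩
    · rw [h, Fin.cons_zero] at hv ⊢
      exact Option.some.inj hv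
    · rw [h, Fin.cons_succ] at hv ⊢
      exact hr i c hv

theorem ext_cons_none {n : ℕ} (ρ : Fin n → Option Bool) (E : (Fin (n + 1) → Bool) → Prop) :
    (∃ x, E x ∧ Ext (Fin.cons none ρ : Fin (n + 1) → Option Bool) x) ↔
      ∃ y : Fin n → Bool, (E (Fin.cons true y) ∨ E (Fin.cons false y)) ∧ Ext ρ y := by
  constructor
  · rintro ⟨x, hx, hr⟩
    refine ⟨Fin.tail x, ?_, ?_⟩
    · rcases h : x 0 with _ | _
      · right
        rw [← h, Fin.cons_self_tail]
        exact hx
      · left
        rw [← h, Fin.cons_self_tail]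
        exact hx
    · intro v c hv
      exact hr v.succ c (by rw [Fin.cons_succ]; exact hv)
  · rintro ⟨y, hy, hr⟩
    have key : ∀ b : Bool, Ext (Fin.cons none ρ : Fin (n + 1) → Option Bool)
        (Fin.cons b y : Fin (n + 1) → Bool) := by
      intro b v c hv
      rcases Fin.eq_zero_or_eq_succ v with h | ⟨i, h⟩
      · rw [h, Fin.cons_zero] at hv
        exact absurd hv (by simp)
      · rw [h, Fin.cons_succ] at hv ⊢
        exact hr i c hv
    rcases hy with hy | hy
    · exact ⟨_, hy, key true⟩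
    · exact ⟨_, hy, key false⟩

theorem wt_cons {n : ℕ} (η : ℝ) (o : Option Bool) (ρ : Fin n → Option Bool) :
    wt η (Fin.cons o ρ : Fin (n + 1) → Option Bool) =
      (if o = none then 1 - η else η / 2) * wt η ρ := by
  unfold wt
  rw [Fin.prod_univ_succ]
  simp only [Fin.cons_zero, Fin.cons_succ]

theorem qq_succ {n : ℕ} (η : ℝ) (E : (Fin (n + 1) → Bool) → Prop) :
    qq η E = (1 - η) * qq η (fun y : Fin n → Bool => E (Fin.cons true y) ∨ E (Fin.cons false y)) +
      (η / 2 * qq η (fun y : Fin n → Bool => E (Fin.cons true y)) +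
        η / 2 * qq η (fun y : Fin n → Bool => E (Fin.cons false y))) := by
  unfold qq
  rw [← (Fin.consEquiv (fun _ : Fin (n + 1) => Option Bool)).sum_comp, Fintype.sum_prod_type,
    Fintype.sum_option, Fintype.sum_bool]
  have e : ∀ (o : Option Bool) (ρ : Fin n → Option Bool),
      (Fin.consEquiv (fun _ : Fin (n + 1) => Option Bool)) (o, ρ) =
        (Fin.cons o ρ : Fin (n + 1) → Option Bool) := fun o ρ => rfl
  simp only [e, ext_cons_none, ext_cons_some, wt_cons, Finset.mul_sum, if_true, reduceCtorEq,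
    if_false]
  congr 1
  · refine Finset.sum_congr rfl fun ρ _ => ?_
    split_ifs <;> simp
  · congr 1
    · refine Finset.sum_congr rfl fun ρ _ => ?_
      split_ifs <;> simp
    · refine Finset.sum_congr rfl fun ρ _ => ?_
      split_ifs <;> simp

theorem main_fin {η : ℝ} (h0 : 0 < η) (h1 : η ≤ 1) : ∀ (n : ℕ) (E : (Fin n → Bool) → Prop),
    pr E ^ η ≤ qq η E := by
  intro n
  induction n with
  | zero =>
    intro E
    by_cases hE : E default
    · have hq : qq η E = 1 := by
        unfold qq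
        rw [Fintype.sum_unique, if_pos ⟨default, hE, fun v => v.elim0⟩]
        unfold wt
        simp
      rw [hq]
      exact Real.rpow_le_one (pr_nonneg E) (pr_le_one E) h0.le
    · have hE' : ∀ w, ¬ E w := fun w => by rwa [Subsingleton.elim w default]
      have hp : pr E = 0 := by
        unfold pr av
        simp [hE']
      rw [hp, Real.zero_rpow h0.ne']
      exact qq_nonneg h0 h1 E
  | succ n ih =>
    intro E
    rw [pr_succ, qq_succ]
    set Et : (Fin n → Bool) → Prop := fun y => E (Fin.cons true y) with hEt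
    set Ef : (Fin n → Bool) → Prop := fun y => E (Fin.cons false y) with hEf
    have it := ih Et
    have if' := ih Ef
    have mt : qq η Et ≤ qq η (fun y => Et y ∨ Ef y) := qq_mono h0 h1 fun y h => Or.inl h
    have mf : qq η Ef ≤ qq η (fun y => Et y ∨ Ef y) := qq_mono h0 h1 fun y h => Or.inr h
    have hs : (0 : ℝ) ≤ 1 - η := by linarith
    rcases le_total (pr Ef) (pr Et) with h | h
    · have hn := num h0 h1 (pr_nonneg Ef) h
      have h2 : (1 - η) * pr Et ^ η ≤ (1 - η) * qq η (fun y => Et y ∨ Ef y) :=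
        mul_le_mul_of_nonneg_left (it.trans mt) hs
      have h3 : η / 2 * pr Et ^ η ≤ η / 2 * qq η Et :=
        mul_le_mul_of_nonneg_left it (by linarith)
      have h4 : η / 2 * pr Ef ^ η ≤ η / 2 * qq η Ef :=
        mul_le_mul_of_nonneg_left if' (by linarith)
      linarith
    · have hn := num h0 h1 (pr_nonneg Et) h
      have h2 : (1 - η) * pr Ef ^ η ≤ (1 - η) * qq η (fun y => Et y ∨ Ef y) :=
        mul_le_mul_of_nonneg_left (if'.trans mf) hs
      have h3 : η / 2 * pr Et ^ η ≤ η / 2 * qq η Et :=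
        mul_le_mul_of_nonneg_left it (by linarith)
      have h4 : η / 2 * pr Ef ^ η ≤ η / 2 * qq η Ef :=
        mul_le_mul_of_nonneg_left if' (by linarith)
      rw [add_comm (pr Et) (pr Ef)]
      linarith

/-! ### Transport -/

theorem qq_equiv {V V' : Type} [Fintype V] [DecidableEq V] [Fintype V'] [DecidableEq V']
    (e : V ≃ V') (η : ℝ) (E : (V → Bool) → Prop) :
    qq η (fun y : V' → Bool => E (y ∘ e)) = qq η E := by
  unfold qq
  rw [← (e.arrowCongr (Equiv.refl (Option Bool))).sum_comp]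
  refine Finset.sum_congr rfl fun ρ _ => ?_
  have hw : wt η ((e.arrowCongr (Equiv.refl (Option Bool))) ρ) = wt η ρ := by
    unfold wt
    rw [← e.prod_comp]
    refine Finset.prod_congr rfl fun v _ => ?_
    simp
  have hc : (∃ y : V' → Bool, E (y ∘ e) ∧ Ext ((e.arrowCongr (Equiv.refl (Option Bool))) ρ) y) ↔
      ∃ x, E x ∧ Ext ρ x := by
    constructor
    · rintro ⟨y, hy, hr⟩
      refine ⟨y ∘ e, hy, fun v c hv => ?_⟩
      exact hr (e v) c (by simpa using hv)
    · rintro ⟨x, hx, hr⟩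
      refine ⟨x ∘ e.symm, ?_, fun v c hv => ?_⟩
      · have : (x ∘ e.symm) ∘ e = x := by
          funext v
          simp
        rw [this]
        exact hx
      · exact hr (e.symm v) c (by simpa using hv)
  rw [hw]
  by_cases h : ∃ x, E x ∧ Ext ρ x
  · rw [if_pos h, if_pos (hc.2 h)]
  · rw [if_neg h, if_neg fun h' => h (hc.1 h')]

theorem pr_equiv' {V V' : Type} [Fintype V] [DecidableEq V] [Fintype V'] [DecidableEq V']
    (e : V ≃ V') (E : (V → Bool) → Prop) : pr (fun y : V' → Bool => E (y ∘ e)) = pr E := by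
  have h := pr_equiv (e.arrowCongr (Equiv.refl Bool)) (fun y : V' → Bool => E (y ∘ e))
  rw [← h]
  refine pr_congr fun x => ?_
  have : ((e.arrowCongr (Equiv.refl Bool)) x) ∘ e = x := by
    funext v
    simp
  rw [this]

theorem ext : Pool.Agent.Helper78.DT.ExtStmt := by
  intro V _ _ η h0 h1 E
  have e := Fintype.equivFin V
  have h := main_fin h0 h1 (Fintype.card V) (fun y => E (y ∘ e))
  rw [pr_equiv' e E, qq_equiv e η E] at h
  exact h

end Pool.Agent.Helper27.DT
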